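import Pool.Agent.Lib.H31I.Hyp

/-!
# Two hyperbolic exponential maps whose Julia sets are homeomorphic but not equivalently embedded

`f_c(z) = c exp z`. There are nonzero parameters `a`, `b` such that `f_a` and `f_b` are hyperbolic, each
with an attracting cycle of minimal period `18` which attracts the whole Fatou set, the Julia sets
`J(f_a)` and `J(f_b)` are homeomorphic, and no homeomorphism of the plane maps `J(f_a)` onto
`J(f_b)`. All notions are defined below in the words of the problem; the proof is in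
`Pool/Agent/Lib/H31J` (`PROOF.md` there).
-/

set_option autoImplicit false

namespace Pool.Agent.Results.MP_3a87b6_an.HyperbolicPair

open Filter Topology

/-- The exponential map `f_c(z) = c exp z`. -/
noncomputable def expMap (c : ℂ) : ℂ → ℂ := fun z => c * Complex.exp z

/-- The iterates `f_c^n` form a normal family on `U`: every subsequence of the sequence of iterates has a
further subsequence which converges locally uniformly on `U` to a function `U → ℂ`, or converges
to infinity uniformly on the compact subsets of `U`. -/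
def NormalOn (c : ℂ) (U : Set ℂ) : Prop :=
  ∀ φ : ℕ → ℕ, StrictMono φ → ∃ ψ : ℕ → ℕ, StrictMono ψ ∧
    ((∃ g : ℂ → ℂ, TendstoLocallyUniformlyOn (fun k : ℕ => (expMap c)^[φ (ψ k)]) g atTop U) ∨
      ∀ K : Set ℂ, K ⊆ U → IsCompact K → ∀ R : ℝ, ∀ᶠ k in atTop,
        ∀ x ∈ K, R < ‖(expMap c)^[φ (ψ k)] x‖)

/-- The Fatou set of `f_c`: the points with an open neighbourhood on which the iterates form a normal
family. -/
def fatouSet (c : ℂ) : Set ℂ := {z | ∃ U : Set ℂ, IsOpen U ∧ z ∈ U ∧ NormalOn c U}

/-- The Julia set of `f_c`: the complement of the Fatou set. -/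
def juliaSet (c : ℂ) : Set ℂ := (fatouSet c)ᶜ

/-- `f_c` is hyperbolic with an attracting cycle of minimal period `q`: some point `y` has minimal
period `q`, the multiplier of its cycle has absolute value less than one, and every point of the
Fatou set is attracted to this cycle. -/
def HyperbolicOfPeriod (q : ℕ) (c : ℂ) : Prop :=
  ∃ y : ℂ, Function.minimalPeriod (expMap c) y = q ∧ ‖deriv ((expMap c)^[q]) y‖ < 1 ∧
    ∀ z ∈ fatouSet c, ∃ k : ℕ,
      Tendsto (fun n : ℕ => (expMap c)^[q * n + k] z) atTop (𝓝 y)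

/-- Two subsets of the plane are equivalently embedded: some homeomorphism of the plane maps the first
onto the second. -/
def EquivalentlyEmbedded (X Y : Set ℂ) : Prop := ∃ H : ℂ ≃ₜ ℂ, H '' X = Y

theorem juliaSet_eq (c : ℂ) : juliaSet c = PJ.Jul c := by
  ext z
  refine not_congr ⟨?_, ?_⟩
  · rintro ⟨U, hU, hz, h⟩
    exact ⟨U, hU.mem_nhds hz, h⟩
  · rintro ⟨U, hU, h⟩
    refine ⟨interior U, isOpen_interior, mem_interior_iff_mem_nhds.2 hU, fun φ hφ => ?_⟩
    obtain ⟨ψ, hψ, h1⟩ := h φ hφ
    refine ⟨ψ, hψ, ?_⟩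
    rcases h1 with ⟨g, hg⟩ | h1
    · exact Or.inl ⟨g, hg.mono interior_subset⟩
    · exact Or.inr fun K hK hKc R => h1 K (hK.trans interior_subset) hKc R

theorem hyperbolic_of {q : ℕ} {c : ℂ} (h : PJ.HypQ q c) : HyperbolicOfPeriod q c := by
  obtain ⟨y, h1, h2, h3⟩ := h
  refine ⟨y, h1, h2, fun z hz => h3 z ?_⟩
  rw [← juliaSet_eq]
  exact fun hzJ => hzJ hz

/-- There are nonzero `a`, `b` such that `f_a` and `f_b` are hyperbolic with attracting cycles of minimal
period `18`, their Julia sets are homeomorphic, but not equivalently embedded in the plane. -/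
theorem result : ∃ a b : ℂ, a ≠ 0 ∧ b ≠ 0 ∧
    HyperbolicOfPeriod 18 a ∧ HyperbolicOfPeriod 18 b ∧
    Nonempty (juliaSet a ≃ₜ juliaSet b) ∧
    ¬ EquivalentlyEmbedded (juliaSet a) (juliaSet b) := by
  obtain ⟨a, b, ha, hb, h1, h2, h3, h4⟩ := PJ.finalH
  refine ⟨a, b, ha, hb, hyperbolic_of h1, hyperbolic_of h2, ?_, ?_⟩
  · rw [juliaSet_eq, juliaSet_eq]
    exact h3
  · rw [juliaSet_eq, juliaSet_eq]
    exact h4

end Pool.Agent.Results.MP_3a87b6_an.HyperbolicPair
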